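import Pool.Agent.Helper221.SQ.Kal

/-!
# A squeezed ball of positive index whose boundary is not a Kalai squeezed sphere

The ideal is `U = {1, x₁, x₂, x₃, x₃², x₃³}` and `ℓ = 2`.  The complex `Δ_2(U)` has the facets
`45678, 12678, 23678, 34678, 34568, 34567`; it is a 4-ball, and its boundary is the boundary of the
stacked ball with facets `34578, 35678, 23678, 12678`, in which only two vertices (7 and 8) are
joined to all others.  If `∂Δ_t(Ũ)`, `t ≥ d_max(Ũ)`, is 3-dimensional then `t + d_max(Ũ) = 5`, and
the vertices `m + 3`, `m + 4`, `m + 5` are joined to all others.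
-/

set_option autoImplicit false

namespace Pool.Agent.Results.MP_7f3eea_co.StackedCounterexample

open Pool.Agent.Helper221.SQ

/-- There are a shifted order ideal `U`, whose monomials of the largest degree `d_max(U)` are all
divisible by `x_m`, and `ℓ = d_max(U) - 1` such that `Δ_ℓ(U)` is a ball and its boundary is not
isomorphic to `∂Δ_t(Ũ)` for any shifted order ideal `Ũ` and any `t ≥ d_max(Ũ)`. -/
theorem result : ∃ (m : ℕ) (I : ShiftedIdeal m) (l : ℕ), l + 1 = I.dmax ∧
    (∀ u ∈ I.U, Multiset.card u = I.dmax → m ∈ u) ∧ IsBall (I.facets l) (I.dmax + l - 1) ∧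
    ¬ IsSqueezedSphere (bdry (I.facets l)) := by
  refine ⟨3, I0, 2, by rw [I0_dmax], ?_, I0_ball, not_squeezed⟩
  rw [I0_dmax]
  decide

end Pool.Agent.Results.MP_7f3eea_co.StackedCounterexample
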